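import Pool.Agent.Helper62.NT.Goals

/-!
PROJECT NT (MP_8ff381_an), packet LSUM (helper32): the lower estimate along a branch.
-/

set_option autoImplicit false

noncomputable section

namespace Pool.Agent.Helper32.NT.LSUM

open Filter Topology
open Pool.Agent.Helper62.NT

theorem t (hV : S_VBAS) (hL : S_LOW) (hU : S_ULT) : S_LSUM := by
  obtain ⟨v0, v1, v2, _, v4, _, _, _, _, _⟩ := hV
  obtain ⟨u1, u2, u3, _, _, _, u7⟩ := hU
  intro h L D hGB hD0 hD
  obtain ⟨R, hR⟩ := hGB
  have hP := u7 h R hR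
  have hR0 : 0 ≤ R := by
    have := (hR []).1 0 (fun _ => 0) monotone_const
    simpa [qs] using this
  have hbv : ∀ r u, BV (PL h r u) := fun r u => ⟨R, (hP r u).1⟩
  have hVle : ∀ r u, V (PL h r u) ≤ Real.sqrt R := fun r u =>
    v2 _ _ (Real.sqrt_nonneg _) (by rw [Real.sq_sqrt hR0]; exact (hP r u).1)
  have hDbv : ∀ m i u, BV (Dl h m i u) ∧ V (Dl h m i u) ≤ 2 * Real.sqrt R := by
    intro m i u
    have e := v4 _ _ (hbv (m - i) u) (hbv (m - i + 1) u.tail)
    refine ⟨e.1, e.2.trans ?_⟩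
    have e1 := hVle (m - i) u
    have e2 := hVle (m - i + 1) u.tail
    linarith
  have hDvb : ∀ m i u, VB (Dl h m i u) ((2 * Real.sqrt R) ^ 2) := by
    intro m i u n p hp
    refine (v1 _ (hDbv m i u).1 n p hp).trans ?_
    exact pow_le_pow_left₀ (v0 _) (hDbv m i u).2 2
  obtain ⟨v, hv⟩ : ∃ v : ℕ → ℝ, v = fun i => ulim (UN i) fun u => V (Dl h L i u) := ⟨_, rfl⟩
  have hvt : ∀ i, Tendsto (fun u => V (Dl h L i u)) (UN i : Filter (List ℕ)) (𝓝 (v i)) := by
    intro i
    have := (u1 (List ℕ) (UN i) (fun u => V (Dl h L i u)) (2 * Real.sqrt R) (fun u => by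
      rw [abs_of_nonneg (v0 _)]
      exact (hDbv L i u).2)).1
    rw [hv]
    exact this
  have key : ∀ ε : ℝ, 0 < ε → ∀ i, i ≤ L → ∀ᶠ u in (UN i : Filter (List ℕ)),
      ∑ j ∈ Finset.Icc 1 i, v j ^ 2 ≤ V (PL h (L - i) u) ^ 2 + i * ε := by
    intro ε hε i
    induction i with
    | zero =>
      intro _
      refine Eventually.of_forall fun u => ?_
      have := sq_nonneg (V (PL h (L - 0) u))
      simpa using this
    | succ i ih =>
      intro hi
      have ih' := ih (by omega)
      have hsq : ∀ᶠ u in (UN (i + 1) : Filter (List ℕ)),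
          v (i + 1) ^ 2 < V (Dl h L (i + 1) u) ^ 2 + ε / 2 := by
        have e := ((hvt (i + 1)).pow 2).add_const (ε / 2)
        exact e.eventually (lt_mem_nhds (by linarith))
      rw [u2] at hsq ⊢
      filter_upwards [ih', hsq] with u hu hs
      have hlow := hL ℕ (UU : Filter ℕ) (PL h (L - i) u) (fun n => Dl h L (i + 1) (n :: u))
        ((2 * Real.sqrt R) ^ 2) (ε / 2) (hbv _ _) (fun n => hDvb _ _ _) (fun t => by
          have e := ((hP (L - (i + 1)) u).2.2 t).sub_const (PL h (L - (i + 1) + 1) u t)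
          rw [sub_self] at e
          exact e) (by linarith)
      filter_upwards [hs, hlow] with n h1 h2
      have e1 : (fun t => PL h (L - i) u t + Dl h L (i + 1) (n :: u) t)
          = PL h (L - (i + 1)) (n :: u) := by
        funext t
        have e3 : L - i = L - (i + 1) + 1 := by omega
        rw [e3]
        simp only [Dl, List.tail_cons]
        ring
      rw [e1] at h2
      rw [Finset.sum_Icc_succ_top (by omega)]
      push_cast
      nlinarith
  have main : ∀ ε : ℝ, 0 < ε → ∑ j ∈ Finset.Icc 1 L, v j ^ 2 ≤ D ^ 2 + L * ε := by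
    intro ε hε
    obtain ⟨u, h1, h2⟩ := ((key ε hε L le_rfl).and (u3 L)).exists
    rw [Nat.sub_self] at h1
    refine h1.trans ?_
    have e : V (PL h 0 u) ≤ D := hD u h2
    have := pow_le_pow_left₀ (v0 (PL h 0 u)) e 2
    linarith
  have fin : ∑ j ∈ Finset.Icc 1 L, v j ^ 2 ≤ D ^ 2 := by
    refine le_of_forall_pos_le_add fun δ hδ => ?_
    have e := main (δ / (L + 1)) (by positivity)
    refine e.trans ?_
    have : (L : ℝ) * (δ / (L + 1)) ≤ δ := by
      rw [mul_div_assoc', div_le_iff₀ (by positivity)]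
      nlinarith
    linarith
  rw [hv] at fin
  exact fin

end Pool.Agent.Helper32.NT.LSUM
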